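import Mathlib

/-!
# MP_998f06_co, Q2 (and Q1): the population ratio is unbounded

One reversible, rotation-symmetric, non-conservative ESPCA with quiescent zero state has periodic
patterns with arbitrarily large ratio `p_max / p_min`.

The rule is `t' = t r + (1 + r) (b + t l)` over GF(2) and its rotations: a single particle turns
back, two particles in neighbouring parts `p`, `rot p` become the three particles in `p`, `rot p`,
`rot (rot p)` and conversely, and all other states are fixed.

The pattern: `N` odd, the state `(1,1,1,1)` in the cells `(i, i)`, `0 ≤ i < N`, population `4 N`.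
For `0 ≤ t ≤ N` the configuration at time `t` has a closed form (`conf N t`); at time `N + 1` it is
`final N`, with more than `N ^ 2 / 2` particles.  The rule is an involution, so turning all
particles around and applying the rule in every cell (`rev`) reverses time.  Both `conf N 0` and
`final N` are fixed by `rev`, so `conf N 0` has period `2 (N + 1)`.
-/

namespace Pool.Agent.Results.MP_998f06_co.RatioUnbounded

/-! ## Definitions used in the statement -/

/-- State `(t, r, b, l)` of a cell. -/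
abbrev Cell := Bool × Bool × Bool × Bool

/-- Configurations of the square model. -/
abbrev Config := ℤ × ℤ → Cell

/-- The all-zero state. -/
def zeroCell : Cell := (false, false, false, false)

/-- The global map of the ESPCA with local function `f`. -/
def globalMap (f : Cell → Cell) (α : Config) : Config := fun x =>
  f ((α (x.1, x.2 + 1)).1, (α (x.1 + 1, x.2)).2.1, (α (x.1, x.2 - 1)).2.2.1,
    (α (x.1 - 1, x.2)).2.2.2)

/-- `(t, r, b, l) ↦ (r, b, l, t)`. -/
def rot (s : Cell) : Cell := (s.2.1, s.2.2.1, s.2.2.2, s.1)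

/-- `f(t,r,b,l) = (t',r',b',l')` implies `f(r,b,l,t) = (r',b',l',t')`. -/
def RotationSymmetric (f : Cell → Cell) : Prop := ∀ s, f (rot s) = rot (f s)

/-- The number of ones of a cell state. -/
def ones (s : Cell) : ℕ := s.1.toNat + s.2.1.toNat + s.2.2.1.toNat + s.2.2.2.toNat

/-- The number of ones of every cell state is preserved. -/
def Conservative (f : Cell → Cell) : Prop := ∀ s, ones (f s) = ones s

/-- The total number of ones of a (finite) configuration. -/
noncomputable def popul (α : Config) : ℕ := ∑ᶠ x, ones (α x)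

/-- A non-null finite configuration that returns to itself. -/
def IsPeriodicPattern (f : Cell → Cell) (α : Config) : Prop :=
  (∃ x, α x ≠ zeroCell) ∧ {x | α x ≠ zeroCell}.Finite ∧
    ∃ n : ℕ, 1 ≤ n ∧ (globalMap f)^[n] α = α

/-- Largest population along the forward orbit. -/
noncomputable def pMax (f : Cell → Cell) (α : Config) : ℕ :=
  sSup (Set.range fun t : ℕ => popul ((globalMap f)^[t] α))

/-- Smallest population along the forward orbit. -/
noncomputable def pMin (f : Cell → Cell) (α : Config) : ℕ :=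
  sInf (Set.range fun t : ℕ => popul ((globalMap f)^[t] α))

/-! ## The rule -/

/-- `t r + (1 + r) (b + t l)` over GF(2). -/
def phi (t r b l : Bool) : Bool := xor (t && r) (!r && xor b (t && l))

/-- The local function. -/
def rule (s : Cell) : Cell :=
  (phi s.1 s.2.1 s.2.2.1 s.2.2.2, phi s.2.1 s.2.2.1 s.2.2.2 s.1,
    phi s.2.2.1 s.2.2.2 s.1 s.2.1, phi s.2.2.2 s.1 s.2.1 s.2.2.1)

lemma rule_rot : RotationSymmetric rule := by
  intro s; rfl

lemma rule_zero : rule zeroCell = zeroCell := rfl

lemma rule_rule (s : Cell) : rule (rule s) = s := by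
  revert s; decide

lemma rule_inj : Function.Injective rule := fun a b h => by
  rw [← rule_rule a, ← rule_rule b, h]

lemma rule_not_cons : ¬ Conservative rule := by
  intro h
  exact absurd (h (true, true, false, false)) (by decide)

lemma globalMap_inj {f : Cell → Cell} (hf : Function.Injective f) :
    Function.Injective (globalMap f) := by
  intro α β h
  have key : ∀ x : ℤ × ℤ,
      (α (x.1, x.2 + 1)).1 = (β (x.1, x.2 + 1)).1 ∧
      (α (x.1 + 1, x.2)).2.1 = (β (x.1 + 1, x.2)).2.1 ∧
      (α (x.1, x.2 - 1)).2.2.1 = (β (x.1, x.2 - 1)).2.2.1 ∧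
      (α (x.1 - 1, x.2)).2.2.2 = (β (x.1 - 1, x.2)).2.2.2 := by
    intro x
    have h1 := hf (congrFun h x)
    simp only [Prod.mk.injEq] at h1
    exact h1
  funext ⟨u, v⟩
  have h1 := (key (u, v - 1)).1
  have h2 := (key (u - 1, v)).2.1
  have h3 := (key (u, v + 1)).2.2.1
  have h4 := (key (u + 1, v)).2.2.2
  simp only [sub_add_cancel, add_sub_cancel_right] at h1 h2 h3 h4
  exact Prod.ext h1 (Prod.ext h2 (Prod.ext h3 h4))

/-! ## Time reversal -/

/-- Turn all particles around. -/
def flip (s : Cell) : Cell := (s.2.2.1, s.2.2.2, s.1, s.2.1)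

lemma rule_flip (s : Cell) : rule (flip s) = flip (rule s) := rfl

lemma flip_flip (s : Cell) : flip (flip s) = s := rfl

/-- The time reversal. -/
def rev (α : Config) : Config := fun x => flip (rule (α x))

lemma rev_rev (α : Config) : rev (rev α) = α := by
  funext x
  simp only [rev]
  rw [rule_flip, flip_flip, rule_rule]

lemma rev_step (α : Config) : rev (globalMap rule (rev (globalMap rule α))) = α := by
  funext ⟨u, v⟩
  simp only [rev, globalMap, rule_rule, sub_add_cancel, add_sub_cancel_right]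
  rfl

lemma rev_iterate (n : ℕ) : ∀ α : Config,
    rev ((globalMap rule)^[n] (rev ((globalMap rule)^[n] α))) = α := by
  induction n with
  | zero => intro α; exact rev_rev α
  | succ n ih =>
    intro α
    have h := ih (globalMap rule α)
    have h2 : (globalMap rule)^[n] (rev ((globalMap rule)^[n] (globalMap rule α))) =
        rev (globalMap rule α) := by
      rw [← rev_rev ((globalMap rule)^[n] (rev ((globalMap rule)^[n] (globalMap rule α)))), h]
    rw [Function.iterate_succ_apply (globalMap rule) n α, Function.iterate_succ_apply', h2]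
    exact rev_step α

lemma periodic_of_rev {α : Config} {n : ℕ} (h0 : rev α = α)
    (h1 : rev ((globalMap rule)^[n] α) = (globalMap rule)^[n] α) :
    (globalMap rule)^[n + n] α = α := by
  have h := rev_iterate n α
  rw [h1, ← Function.iterate_add_apply] at h
  rw [← rev_rev ((globalMap rule)^[n + n] α), h, h0]

/-! ## The closed form of the orbit -/

/-- Top parts. -/
def pT (N t x y : ℤ) : Prop :=
  (x + y = 2 * N - t ∧ 0 ≤ x ∧ x ≤ N - 1 ∧ y ≤ N) ∨ (x - y = t ∧ 0 ≤ y ∧ x ≤ N - 1)

/-- Bottom parts. -/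
def pB (N t x y : ℤ) : Prop :=
  (x + y = t - 2 ∧ 0 ≤ x ∧ x ≤ N - 1 ∧ -1 ≤ y) ∨ (y - x = t ∧ 0 ≤ x ∧ y ≤ N - 1)

/-- Right parts. -/
def pR (N t x y : ℤ) : Prop :=
  0 ≤ x ∧ x ≤ N ∧ 0 ≤ y ∧ y ≤ N - 1 ∧ -t ≤ x - y ∧ x - y ≤ t ∧ (x + y + t) % 2 = 0 ∧
    ¬ (x + y = 2 * N - t ∧ x % 2 = 0)

/-- Left parts. -/
def pL (N t x y : ℤ) : Prop :=
  -1 ≤ x ∧ x ≤ N - 1 ∧ 0 ≤ y ∧ y ≤ N - 1 ∧ -t ≤ x - y ∧ x - y ≤ t ∧ (x + y + t) % 2 = 0 ∧
    ¬ (x + y = t - 2 ∧ x % 2 = 0)

instance (N t x y : ℤ) : Decidable (pT N t x y) := by unfold pT; infer_instance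
instance (N t x y : ℤ) : Decidable (pB N t x y) := by unfold pB; infer_instance
instance (N t x y : ℤ) : Decidable (pR N t x y) := by unfold pR; infer_instance
instance (N t x y : ℤ) : Decidable (pL N t x y) := by unfold pL; infer_instance

/-- The configuration at time `t`, `0 ≤ t ≤ N`. -/
def conf (N t : ℤ) : Config := fun q =>
  (decide (pT N t q.1 q.2), decide (pR N t q.1 q.2), decide (pB N t q.1 q.2),
    decide (pL N t q.1 q.2))

/-- Top and bottom parts at time `N + 1`. -/
def qT (N x y : ℤ) : Prop := x + y = N - 1 ∧ 0 ≤ x ∧ x ≤ N - 1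

/-- Right parts at time `N + 1`. -/
def qR (N x y : ℤ) : Prop :=
  0 ≤ x ∧ x ≤ N ∧ 0 ≤ y ∧ y ≤ N - 1 ∧ (x + y) % 2 = 0 ∧ ¬ (x + y = N - 1 ∧ x % 2 = 1)

/-- Left parts at time `N + 1`. -/
def qL (N x y : ℤ) : Prop :=
  -1 ≤ x ∧ x ≤ N - 1 ∧ 0 ≤ y ∧ y ≤ N - 1 ∧ (x + y) % 2 = 0 ∧ ¬ (x + y = N - 1 ∧ x % 2 = 1)

instance (N x y : ℤ) : Decidable (qT N x y) := by unfold qT; infer_instance
instance (N x y : ℤ) : Decidable (qR N x y) := by unfold qR; infer_instance
instance (N x y : ℤ) : Decidable (qL N x y) := by unfold qL; infer_instance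

/-- The configuration at time `N + 1`. -/
def final (N : ℤ) : Config := fun q =>
  (decide (qT N q.1 q.2), decide (qR N q.1 q.2), decide (qT N q.1 q.2), decide (qL N q.1 q.2))

lemma phi_decide {a b c d e : Prop} [Decidable a] [Decidable b] [Decidable c] [Decidable d]
    [Decidable e]
    (h : (a → b → e) ∧ (¬ a → b → ¬ e) ∧ (¬ b → ¬ a → (e ↔ c)) ∧ (¬ b → ¬ d → (e ↔ c)) ∧
      (a → ¬ b → d → (e ↔ ¬ c))) :
    phi (decide a) (decide b) (decide c) (decide d) = decide e := by
  obtain ⟨h1, h2, h3, h4, h5⟩ := h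
  by_cases ha : a <;> by_cases hb : b <;> by_cases hc : c <;> by_cases hd : d <;>
    by_cases he : e <;> simp_all [phi]

lemma stepT {N t x y : ℤ} (hN : N % 2 = 1) (h0 : 0 ≤ t) (h1 : t < N) :
    phi (decide (pT N t x (y + 1))) (decide (pR N t (x + 1) y)) (decide (pB N t x (y - 1)))
      (decide (pL N t (x - 1) y)) = decide (pT N (t + 1) x y) := by
  apply phi_decide
  unfold pT pR pB pL
  refine ⟨?_, ?_, ?_, ?_, ?_⟩ <;> intros <;> omega

lemma stepR {N t x y : ℤ} (hN : N % 2 = 1) (h0 : 0 ≤ t) (h1 : t < N) :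
    phi (decide (pR N t (x + 1) y)) (decide (pB N t x (y - 1)))
      (decide (pL N t (x - 1) y)) (decide (pT N t x (y + 1))) = decide (pR N (t + 1) x y) := by
  apply phi_decide
  unfold pT pR pB pL
  refine ⟨?_, ?_, ?_, ?_, ?_⟩ <;> intros <;> omega

lemma stepB {N t x y : ℤ} (hN : N % 2 = 1) (h0 : 0 ≤ t) (h1 : t < N) :
    phi (decide (pB N t x (y - 1))) (decide (pL N t (x - 1) y)) (decide (pT N t x (y + 1)))
      (decide (pR N t (x + 1) y)) = decide (pB N (t + 1) x y) := by
  apply phi_decide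
  unfold pT pR pB pL
  refine ⟨?_, ?_, ?_, ?_, ?_⟩ <;> intros <;> omega

lemma stepL {N t x y : ℤ} (hN : N % 2 = 1) (h0 : 0 ≤ t) (h1 : t < N) :
    phi (decide (pL N t (x - 1) y)) (decide (pT N t x (y + 1))) (decide (pR N t (x + 1) y))
      (decide (pB N t x (y - 1))) = decide (pL N (t + 1) x y) := by
  apply phi_decide
  unfold pT pR pB pL
  refine ⟨?_, ?_, ?_, ?_, ?_⟩ <;> intros <;> omega

lemma conf_step {N t : ℤ} (hN : N % 2 = 1) (h0 : 0 ≤ t) (h1 : t < N) :
    globalMap rule (conf N t) = conf N (t + 1) := by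
  funext ⟨x, y⟩
  simp only [globalMap, conf, rule]
  rw [stepT hN h0 h1, stepR hN h0 h1, stepB hN h0 h1, stepL hN h0 h1]

lemma lastT {N x y : ℤ} (hN : N % 2 = 1) :
    phi (decide (pT N N x (y + 1))) (decide (pR N N (x + 1) y)) (decide (pB N N x (y - 1)))
      (decide (pL N N (x - 1) y)) = decide (qT N x y) := by
  apply phi_decide
  unfold pT pR pB pL qT
  refine ⟨?_, ?_, ?_, ?_, ?_⟩ <;> intros <;> omega

lemma lastR {N x y : ℤ} (hN : N % 2 = 1) :
    phi (decide (pR N N (x + 1) y)) (decide (pB N N x (y - 1)))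
      (decide (pL N N (x - 1) y)) (decide (pT N N x (y + 1))) = decide (qR N x y) := by
  apply phi_decide
  unfold pT pR pB pL qR
  refine ⟨?_, ?_, ?_, ?_, ?_⟩ <;> intros <;> omega

lemma lastB {N x y : ℤ} (hN : N % 2 = 1) :
    phi (decide (pB N N x (y - 1))) (decide (pL N N (x - 1) y)) (decide (pT N N x (y + 1)))
      (decide (pR N N (x + 1) y)) = decide (qT N x y) := by
  apply phi_decide
  unfold pT pR pB pL qT
  refine ⟨?_, ?_, ?_, ?_, ?_⟩ <;> intros <;> omega

lemma lastL {N x y : ℤ} (hN : N % 2 = 1) :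
    phi (decide (pL N N (x - 1) y)) (decide (pT N N x (y + 1))) (decide (pR N N (x + 1) y))
      (decide (pB N N x (y - 1))) = decide (qL N x y) := by
  apply phi_decide
  unfold pT pR pB pL qL
  refine ⟨?_, ?_, ?_, ?_, ?_⟩ <;> intros <;> omega

lemma conf_last {N : ℤ} (hN : N % 2 = 1) : globalMap rule (conf N N) = final N := by
  funext ⟨x, y⟩
  simp only [globalMap, conf, final, rule]
  rw [lastT hN, lastR hN, lastB hN, lastL hN]

lemma conf_iterate {n : ℕ} (hN : n % 2 = 1) : ∀ t : ℕ, t ≤ n →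
    (globalMap rule)^[t] (conf n 0) = conf n t
  | 0, _ => rfl
  | t + 1, h => by
    rw [Function.iterate_succ_apply', conf_iterate hN t (by omega),
      conf_step (by omega) (by omega) (by omega)]
    push_cast
    rfl

lemma conf_iterate_last {n : ℕ} (hN : n % 2 = 1) :
    (globalMap rule)^[n + 1] (conf n 0) = final n := by
  rw [Function.iterate_succ_apply', conf_iterate hN n le_rfl, conf_last (by omega)]

/-! ## Both ends are symmetric in time -/

lemma rev_conf (N : ℤ) : rev (conf N 0) = conf N 0 := by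
  funext ⟨x, y⟩
  have h1 : phi (decide (pB N 0 x y)) (decide (pL N 0 x y)) (decide (pT N 0 x y))
      (decide (pR N 0 x y)) = decide (pT N 0 x y) := by
    apply phi_decide
    unfold pT pR pB pL
    refine ⟨?_, ?_, ?_, ?_, ?_⟩ <;> intros <;> omega
  have h2 : phi (decide (pL N 0 x y)) (decide (pT N 0 x y)) (decide (pR N 0 x y))
      (decide (pB N 0 x y)) = decide (pR N 0 x y) := by
    apply phi_decide
    unfold pT pR pB pL
    refine ⟨?_, ?_, ?_, ?_, ?_⟩ <;> intros <;> omega
  have h3 : phi (decide (pT N 0 x y)) (decide (pR N 0 x y)) (decide (pB N 0 x y))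
      (decide (pL N 0 x y)) = decide (pB N 0 x y) := by
    apply phi_decide
    unfold pT pR pB pL
    refine ⟨?_, ?_, ?_, ?_, ?_⟩ <;> intros <;> omega
  have h4 : phi (decide (pR N 0 x y)) (decide (pB N 0 x y)) (decide (pL N 0 x y))
      (decide (pT N 0 x y)) = decide (pL N 0 x y) := by
    apply phi_decide
    unfold pT pR pB pL
    refine ⟨?_, ?_, ?_, ?_, ?_⟩ <;> intros <;> omega
  simp only [rev, flip, rule, conf]
  rw [h1, h2, h3, h4]

lemma rev_final (N : ℤ) : rev (final N) = final N := by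
  funext ⟨x, y⟩
  have h1 : phi (decide (qT N x y)) (decide (qL N x y)) (decide (qT N x y))
      (decide (qR N x y)) = decide (qT N x y) := by
    apply phi_decide
    unfold qT qR qL
    refine ⟨?_, ?_, ?_, ?_, ?_⟩ <;> intros <;> omega
  have h2 : phi (decide (qL N x y)) (decide (qT N x y)) (decide (qR N x y))
      (decide (qT N x y)) = decide (qR N x y) := by
    apply phi_decide
    unfold qT qR qL
    refine ⟨?_, ?_, ?_, ?_, ?_⟩ <;> intros <;> omega
  have h3 : phi (decide (qT N x y)) (decide (qR N x y)) (decide (qT N x y))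
      (decide (qL N x y)) = decide (qT N x y) := by
    apply phi_decide
    unfold qT qR qL
    refine ⟨?_, ?_, ?_, ?_, ?_⟩ <;> intros <;> omega
  have h4 : phi (decide (qR N x y)) (decide (qT N x y)) (decide (qL N x y))
      (decide (qT N x y)) = decide (qL N x y) := by
    apply phi_decide
    unfold qT qR qL
    refine ⟨?_, ?_, ?_, ?_, ?_⟩ <;> intros <;> omega
  simp only [rev, flip, rule, final]
  rw [h1, h2, h3, h4]

lemma conf_periodic {n : ℕ} (hN : n % 2 = 1) :
    (globalMap rule)^[(n + 1) + (n + 1)] (conf n 0) = conf n 0 := by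
  apply periodic_of_rev (rev_conf n)
  rw [conf_iterate_last hN]
  exact rev_final n

/-! ## Populations -/

lemma ones_eq_zero {s : Cell} : ones s = 0 ↔ s = zeroCell := by
  revert s; decide

lemma ones_le (s : Cell) : ones s ≤ 4 := by
  revert s; decide

lemma support_ones (α : Config) : Function.support (fun x => ones (α x)) = {x | α x ≠ zeroCell} := by
  ext x
  simp [Function.mem_support, ones_eq_zero]

lemma finite_step {α : Config} (h : {x | α x ≠ zeroCell}.Finite) :
    {x | globalMap rule α x ≠ zeroCell}.Finite := by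
  have h1 : {x | globalMap rule α x ≠ zeroCell} ⊆
      (fun z : ℤ × ℤ => (z.1, z.2 - 1)) '' {x | α x ≠ zeroCell} ∪
      (fun z : ℤ × ℤ => (z.1 - 1, z.2)) '' {x | α x ≠ zeroCell} ∪
      (fun z : ℤ × ℤ => (z.1, z.2 + 1)) '' {x | α x ≠ zeroCell} ∪
      (fun z : ℤ × ℤ => (z.1 + 1, z.2)) '' {x | α x ≠ zeroCell} := by
    rintro ⟨u, v⟩ hx
    by_contra hc
    simp only [Set.mem_union, Set.mem_image, Set.mem_ofPred_eq, Prod.mk.injEq, not_or, not_exists,
      not_and] at hc
    obtain ⟨⟨⟨c1, c2⟩, c3⟩, c4⟩ := hc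
    have e1 : α (u, v + 1) = zeroCell := by
      by_contra hz; exact c1 (u, v + 1) hz rfl (by ring)
    have e2 : α (u + 1, v) = zeroCell := by
      by_contra hz; exact c2 (u + 1, v) hz (by ring) rfl
    have e3 : α (u, v - 1) = zeroCell := by
      by_contra hz; exact c3 (u, v - 1) hz rfl (by ring)
    have e4 : α (u - 1, v) = zeroCell := by
      by_contra hz; exact c4 (u - 1, v) hz (by ring) rfl
    apply hx
    simp only [globalMap, e1, e2, e3, e4]
    rfl
  refine Set.Finite.subset ?_ h1
  exact (((h.image _).union (h.image _)).union (h.image _)).union (h.image _)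

lemma finite_iter {α : Config} (h : {x | α x ≠ zeroCell}.Finite) (n : ℕ) :
    {x | (globalMap rule)^[n] α x ≠ zeroCell}.Finite := by
  induction n with
  | zero => exact h
  | succ n ih => rw [Function.iterate_succ_apply']; exact finite_step ih

lemma le_popul {ι : Type*} {β : Config} (h : {x | β x ≠ zeroCell}.Finite) (S : Finset ι)
    (g : ι → ℤ × ℤ) (hg : Set.InjOn g S) : ∑ j ∈ S, ones (β (g j)) ≤ popul β := by
  classical
  have h1 : Function.support (fun x => ones (β x)) ⊆ ↑(h.toFinset ∪ S.image g) := by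
    rw [support_ones]
    intro x hx
    simp only [Finset.coe_union, Set.mem_union, Finset.mem_coe, Set.Finite.mem_toFinset]
    exact Or.inl hx
  unfold popul
  rw [finsum_eq_sum_of_support_subset _ h1, ← Finset.sum_image (f := fun x => ones (β x)) hg]
  exact Finset.sum_le_sum_of_subset Finset.subset_union_right

lemma conf_zero_cell {N x y : ℤ} (h : conf N 0 (x, y) ≠ zeroCell) : x = y ∧ 0 ≤ x ∧ x < N := by
  by_contra hc
  apply h
  have h1 : ¬ pT N 0 x y := by unfold pT; omega
  have h2 : ¬ pR N 0 x y := by unfold pR; omega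
  have h3 : ¬ pB N 0 x y := by unfold pB; omega
  have h4 : ¬ pL N 0 x y := by unfold pL; omega
  simp [conf, zeroCell, h1, h2, h3, h4]

lemma conf_subset (n : ℕ) : {x | conf n 0 x ≠ zeroCell} ⊆
    ↑((Finset.range n).image fun i : ℕ => ((i : ℤ), (i : ℤ))) := by
  rintro ⟨x, y⟩ hx
  obtain ⟨h1, h2, h3⟩ := conf_zero_cell hx
  simp only [Finset.coe_image, Set.mem_image, Finset.mem_coe, Finset.mem_range, Prod.mk.injEq]
  exact ⟨x.toNat, by omega, by omega, by omega⟩

lemma conf_finite (n : ℕ) : {x | conf n 0 x ≠ zeroCell}.Finite :=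
  (Finset.finite_toSet _).subset (conf_subset n)

lemma popul_conf_le (n : ℕ) : popul (conf n 0) ≤ 4 * n := by
  unfold popul
  have h1 : Function.support (fun x => ones (conf n 0 x)) ⊆
      ↑((Finset.range n).image fun i : ℕ => ((i : ℤ), (i : ℤ))) := by
    rw [support_ones]; exact conf_subset n
  rw [finsum_eq_sum_of_support_subset _ h1]
  calc ∑ x ∈ (Finset.range n).image (fun i : ℕ => ((i : ℤ), (i : ℤ))), ones (conf n 0 x)
      ≤ ∑ x ∈ (Finset.range n).image (fun i : ℕ => ((i : ℤ), (i : ℤ))), 4 :=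
        Finset.sum_le_sum fun x _ => ones_le _
    _ = ((Finset.range n).image (fun i : ℕ => ((i : ℤ), (i : ℤ)))).card * 4 := by
        rw [Finset.sum_const, smul_eq_mul]
    _ ≤ (Finset.range n).card * 4 := Nat.mul_le_mul_right _ Finset.card_image_le
    _ = 4 * n := by rw [Finset.card_range, Nat.mul_comm]

lemma popul_final_ge (m : ℕ) :
    2 * (m + 1) ^ 2 ≤ popul ((globalMap rule)^[2 * m + 1 + 1] (conf ((2 * m + 1 : ℕ) : ℤ) 0)) := by
  have hfin := finite_iter (conf_finite (2 * m + 1)) (2 * m + 1 + 1)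
  have hinj : Set.InjOn (fun j : ℕ × ℕ => ((2 * (j.1 : ℤ), 2 * (j.2 : ℤ)) : ℤ × ℤ))
      ↑(Finset.range (m + 1) ×ˢ Finset.range (m + 1)) := by
    rintro ⟨i, a⟩ h1 ⟨i', a'⟩ h2 h
    simp only [Prod.mk.injEq] at h ⊢
    omega
  refine le_trans ?_ (le_popul hfin (Finset.range (m + 1) ×ˢ Finset.range (m + 1)) _ hinj)
  have hs : ∀ j ∈ Finset.range (m + 1) ×ˢ Finset.range (m + 1), 2 ≤
      ones ((globalMap rule)^[2 * m + 1 + 1] (conf ((2 * m + 1 : ℕ) : ℤ) 0)
        (2 * (j.1 : ℤ), 2 * (j.2 : ℤ))) := by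
    rintro ⟨i, a⟩ hj
    simp only [Finset.mem_product, Finset.mem_range] at hj
    rw [conf_iterate_last (by omega)]
    have h1 : qR ((2 * m + 1 : ℕ) : ℤ) (2 * (i : ℤ)) (2 * (a : ℤ)) := by
      unfold qR; push_cast; omega
    have h2 : qL ((2 * m + 1 : ℕ) : ℤ) (2 * (i : ℤ)) (2 * (a : ℤ)) := by
      unfold qL; push_cast; omega
    simp only [final, ones, decide_eq_true h1, decide_eq_true h2, Bool.toNat_true]
    omega
  calc 2 * (m + 1) ^ 2 = ∑ _j ∈ Finset.range (m + 1) ×ˢ Finset.range (m + 1), 2 := by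
        rw [Finset.sum_const, Finset.card_product, Finset.card_range, smul_eq_mul]; ring
    _ ≤ _ := Finset.sum_le_sum hs

/-! ## The result -/

lemma iterate_zero_config (f : Cell → Cell) (hf : f zeroCell = zeroCell) (n : ℕ) :
    (globalMap f)^[n] (fun _ => zeroCell) = fun _ => zeroCell := by
  induction n with
  | zero => rfl
  | succ n ih =>
    rw [Function.iterate_succ_apply', ih]
    funext x
    exact hf

lemma popul_pos {α : Config} (h : IsPeriodicPattern rule α) (t : ℕ) :
    0 < popul ((globalMap rule)^[t] α) := by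
  obtain ⟨⟨x, hx⟩, hfin, n, hn, hper⟩ := h
  rw [Nat.pos_iff_ne_zero]
  intro h0
  have hz : (globalMap rule)^[t] α = fun _ => zeroCell := by
    funext y
    by_contra hy
    have h1 := le_popul (finite_iter hfin t) {y} id (by simp)
    simp only [Finset.sum_singleton, id_eq] at h1
    have h2 : ones ((globalMap rule)^[t] α y) = 0 := by omega
    exact hy (ones_eq_zero.mp h2)
  have h3 : (globalMap rule)^[n * t] α = α := by
    have h4 : Function.IsPeriodicPt (globalMap rule) n α := hper
    exact h4.mul_const t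
  have h5 : n * t = (n * t - t) + t := by
    have : t ≤ n * t := Nat.le_mul_of_pos_left t (by omega)
    omega
  rw [h5, Function.iterate_add_apply, hz, iterate_zero_config rule rule_zero] at h3
  apply hx
  rw [← h3]

lemma bdd {α : Config} (h : IsPeriodicPattern rule α) :
    BddAbove (Set.range fun t : ℕ => popul ((globalMap rule)^[t] α)) := by
  obtain ⟨-, -, n, hn, hper⟩ := h
  have h4 : Function.IsPeriodicPt (globalMap rule) n α := hper
  have hsub : (Set.range fun t : ℕ => popul ((globalMap rule)^[t] α)) ⊆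
      ↑((Finset.range n).image fun t : ℕ => popul ((globalMap rule)^[t] α)) := by
    rintro _ ⟨t, rfl⟩
    simp only [Finset.coe_image, Set.mem_image, Finset.mem_coe, Finset.mem_range]
    exact ⟨t % n, Nat.mod_lt _ (by omega), by rw [h4.iterate_mod_apply]⟩
  exact (Finset.finite_toSet _).bddAbove.mono hsub

/-- Some reversible non-conservative ESPCA has periodic patterns with arbitrarily large ratio
`p_max / p_min`: there is no constant as asked for in Q2. -/
theorem result : ∃ f : Cell → Cell, RotationSymmetric f ∧ f zeroCell = zeroCell ∧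
    Function.Injective (globalMap f) ∧ ¬ Conservative f ∧
    ∀ C : ℝ, ∃ α : Config, IsPeriodicPattern f α ∧
      C < (pMax f α : ℝ) / (pMin f α : ℝ) := by
  refine ⟨rule, rule_rot, rule_zero, globalMap_inj rule_inj, rule_not_cons, ?_⟩
  intro C
  obtain ⟨m, hm⟩ := exists_nat_gt (4 * C)
  set n : ℕ := 2 * m + 1 with hn
  have hodd : n % 2 = 1 := by omega
  have hP : IsPeriodicPattern rule (conf n 0) := by
    refine ⟨⟨(0, 0), ?_⟩, conf_finite n, (n + 1) + (n + 1), by omega, conf_periodic hodd⟩
    have hT : pT n 0 0 0 := by unfold pT; omega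
    intro h
    have h1 := congrArg Prod.fst h
    simp [conf, zeroCell, hT] at h1
  refine ⟨conf n 0, hP, ?_⟩
  have hmax : 2 * (m + 1) ^ 2 ≤ pMax rule (conf n 0) :=
    le_trans (popul_final_ge m) (le_csSup (bdd hP) ⟨2 * m + 1 + 1, rfl⟩)
  have hmin : pMin rule (conf n 0) ≤ 4 * n :=
    le_trans (Nat.sInf_le ⟨0, rfl⟩) (popul_conf_le n)
  have hpos : 0 < pMin rule (conf n 0) := by
    obtain ⟨t, ht⟩ := Nat.sInf_mem (Set.range_nonempty fun t : ℕ =>
      popul ((globalMap rule)^[t] (conf n 0)))
    unfold pMin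
    rw [← ht]
    exact popul_pos hP t
  have hmax' : (2 * (m + 1) ^ 2 : ℝ) ≤ pMax rule (conf n 0) := by exact_mod_cast hmax
  have hmin' : (pMin rule (conf n 0) : ℝ) ≤ 4 * (2 * m + 1) := by
    have : (pMin rule (conf n 0) : ℝ) ≤ ((4 * n : ℕ) : ℝ) := by exact_mod_cast hmin
    refine this.trans (le_of_eq ?_)
    rw [hn]; push_cast; ring
  have hpos' : (0 : ℝ) < pMin rule (conf n 0) := by exact_mod_cast hpos
  rw [lt_div_iff₀ hpos']
  have hm0 : (0 : ℝ) ≤ m := Nat.cast_nonneg m
  rcases le_or_gt C 0 with h | h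
  · have : C * (pMin rule (conf n 0) : ℝ) ≤ 0 := mul_nonpos_of_nonpos_of_nonneg h hpos'.le
    nlinarith
  · have : C * (pMin rule (conf n 0) : ℝ) ≤ C * (4 * (2 * m + 1)) :=
      mul_le_mul_of_nonneg_left hmin' h.le
    nlinarith

end Pool.Agent.Results.MP_998f06_co.RatioUnbounded
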